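import Pool.Agent.H150.Cov.Fin

/-! Covering families in `Z_s^q`, `s` even: the inertia bound after removal of one coordinate. -/

set_option autoImplicit false

namespace Pool.Agent.H150.Cov

open Finset Complex

/-- subtract the first coordinate from the others -/
def norm0 {s q : ℕ} (v : Fin (q + 1) → ZMod s) : Fin q → ZMod s := fun i => v i.succ - v 0

theorem norm0_cov {s q : ℕ} {F : Finset (Fin (q + 1) → ZMod s)} (hF : IsCovering F)
    {v w : Fin (q + 1) → ZMod s} (hv : v ∈ F) (hw : w ∈ F) (hvw : v ≠ w) {t : ZMod s} (ht : t ≠ 0) :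
    ∃ i, norm0 v i - norm0 w i = t := by
  obtain ⟨j, hj⟩ := hF v hv w hw hvw (t + (v 0 - w 0))
  refine Fin.cases (fun h => ?_) (fun i h => ⟨i, ?_⟩) j hj
  · exact absurd (by linear_combination -h : t = 0) ht
  · unfold norm0
    linear_combination h

theorem parity_of {s : ℕ} (he : Even s) {a b : ℕ} (h : (a : ZMod s) = (b : ZMod s)) :
    a % 2 = b % 2 := by
  rw [ZMod.natCast_eq_natCast_iff] at h
  exact h.of_dvd he.two_dvd

/-- **The inertia bound for even moduli.** -/
theorem card_le_even {s q : ℕ} (hs : 2 ≤ s) (he : Even s) {F : Finset (Fin (q + 1) → ZMod s)}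
    (hF : IsCovering F) (k k' : ℕ) (hk : k % 2 = k' % 2)
    (h : M s q (k' : ZMod s) < M s q (k : ZMod s)) : F.card ≤ M s q (k : ZMod s) := by
  classical
  have : NeZero s := ⟨by omega⟩
  have hs0 : (s : ℂ) ≠ 0 := by exact_mod_cast NeZero.ne s
  have hD : ∀ (c : ℕ), c % 2 = k % 2 → ∀ S : Finset (Fin q),
      D (k % 2) (c : ZMod s) S = if (S.card : ZMod s) = (c : ZMod s) then 1 else 0 := by
    intro c hc S
    unfold D
    split_ifs with h1
    · have h2 := parity_of he h1
      have : Even (S.card + k % 2) := Nat.even_iff.2 (by omega)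
      exact this.neg_one_pow
    · rfl
  refine inertia F (fun v S => P (norm0 v) S)
    (fun S => D (k % 2) (k : ZMod s) S - D (k % 2) (k' : ZMod s) S)
    ((M s q (k : ZMod s) : ℝ) - M s q (k' : ZMod s)) ?_ ?_ ?_ _ ?_
  · have : (M s q (k' : ZMod s) : ℝ) < M s q (k : ZMod s) := by exact_mod_cast h
    linarith
  · intro v _
    have h1 : ∀ c : ℕ, c % 2 = k % 2 →
        ((M s q (c : ZMod s) : ℝ) : ℂ) = ∑ S : Finset (Fin q), (D (k % 2) (c : ZMod s) S : ℂ) := by
      intro c hc
      unfold M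
      rw [Finset.card_filter]
      push_cast
      refine Finset.sum_congr rfl fun S _ => ?_
      rw [hD c hc S]
    push_cast
    have h2 := h1 k rfl
    have h3 := h1 k' hk.symm
    push_cast at h2 h3
    rw [h2, h3, ← Finset.sum_sub_distrib]
    refine Finset.sum_congr rfl fun S _ => ?_
    rw [P_mul_conj]
    simp [e]
  · intro v hv w hw hvw
    have h1 : ∀ κ : ZMod s, (s : ℂ) * ∑ S : Finset (Fin q), (D (k % 2) κ S : ℂ) *
        (P (norm0 v) S * (starRingEnd ℂ) (P (norm0 w) S)) =
        (-1) ^ (k % 2) * ∏ i, (1 - e (0 + (norm0 v i - norm0 w i))) := by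
      intro κ
      simp only [P_mul_conj]
      rw [sum_D (k % 2) κ (fun i => norm0 v i - norm0 w i)]
      congr 1
      rw [Finset.sum_eq_single 0]
      · unfold e
        rw [zero_mul, neg_zero, AddChar.map_zero_eq_one, one_mul]
      · intro t _ ht
        obtain ⟨i, hi⟩ := norm0_cov hF hv hw hvw (neg_ne_zero.2 ht)
        rw [Finset.prod_eq_zero (Finset.mem_univ i), mul_zero]
        rw [hi, add_neg_cancel]
        unfold e
        rw [AddChar.map_zero_eq_one, sub_self]
      · intro h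
        exact absurd (Finset.mem_univ _) h
    have h2 : (s : ℂ) * ∑ S : Finset (Fin q),
        ((D (k % 2) (k : ZMod s) S - D (k % 2) (k' : ZMod s) S : ℝ) : ℂ) *
        (P (norm0 v) S * (starRingEnd ℂ) (P (norm0 w) S)) = 0 := by
      have h3 : ∑ S : Finset (Fin q),
          ((D (k % 2) (k : ZMod s) S - D (k % 2) (k' : ZMod s) S : ℝ) : ℂ) *
          (P (norm0 v) S * (starRingEnd ℂ) (P (norm0 w) S)) =
          ∑ S : Finset (Fin q), (D (k % 2) (k : ZMod s) S : ℂ) *
            (P (norm0 v) S * (starRingEnd ℂ) (P (norm0 w) S)) -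
          ∑ S : Finset (Fin q), (D (k % 2) (k' : ZMod s) S : ℂ) *
            (P (norm0 v) S * (starRingEnd ℂ) (P (norm0 w) S)) := by
        rw [← Finset.sum_sub_distrib]
        refine Finset.sum_congr rfl fun S _ => ?_
        push_cast
        ring
      rw [h3, mul_sub, h1, h1, sub_self]
    exact (mul_eq_zero.1 h2).resolve_left hs0
  · intro S hS
    have h1 : ¬ (S.card : ZMod s) = (k : ZMod s) := fun h1 => hS (by
      rw [Finset.mem_filter]; exact ⟨Finset.mem_univ _, h1⟩)
    show D (k % 2) (k : ZMod s) S - D (k % 2) (k' : ZMod s) S ≤ 0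
    rw [hD k rfl, hD k' hk.symm, if_neg h1]
    split_ifs <;> norm_num

theorem sum_M {s : ℕ} [NeZero s] (q : ℕ) :
    ∑ κ : ZMod s, e κ * (M s q κ : ℂ) = (1 + e (1 : ZMod s)) ^ q := by
  classical
  have h3 := Finset.prod_one_add (R := ℂ) (f := fun _ : Fin q => e (1 : ZMod s)) Finset.univ
  rw [Finset.powerset_univ, Finset.prod_const, Finset.card_univ, Fintype.card_fin] at h3
  rw [h3]
  unfold M
  simp only [Finset.card_filter]
  push_cast
  simp only [Finset.mul_sum]
  rw [Finset.sum_comm]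
  refine Finset.sum_congr rfl fun S _ => ?_
  rw [Finset.sum_eq_single (S.card : ZMod s)]
  · rw [if_pos rfl, Finset.prod_const]
    unfold e
    rw [← AddChar.map_nsmul_eq_pow, nsmul_eq_mul, mul_one, mul_one]
  · intro κ _ hκ
    rw [if_neg (Ne.symm hκ), mul_zero]
  · intro h
    exact absurd (Finset.mem_univ _) h

theorem exists_ne2 {s : ℕ} [NeZero s] (hs : 3 ≤ s) (q : ℕ) :
    ∃ κ : ZMod s, M s q (κ + 2) ≠ M s q κ := by
  classical
  by_contra hcon
  push Not at hcon
  have h1 := sum_M (s := s) q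
  have h2 : ∑ κ : ZMod s, e κ * (M s q κ : ℂ) = e (2 : ZMod s) * ∑ κ : ZMod s, e κ * (M s q κ : ℂ) := by
    rw [Finset.mul_sum]
    rw [← Equiv.sum_comp (Equiv.addRight (2 : ZMod s)) (fun κ => e κ * (M s q κ : ℂ))]
    refine Finset.sum_congr rfl fun κ _ => ?_
    rw [Equiv.coe_addRight, hcon κ]
    unfold e
    rw [AddChar.map_add_eq_mul]
    ring
  rw [h1] at h2
  have h20 : (2 : ZMod s) ≠ 0 := by
    intro h
    have h' : ((2 : ℕ) : ZMod s) = 0 := by exact_mod_cast h
    rw [ZMod.natCast_eq_zero_iff] at h'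
    have := Nat.le_of_dvd (by norm_num) h'
    omega
  have he2 : e (2 : ZMod s) ≠ 1 := by
    intro h
    have h0 : e (0 : ZMod s) = 1 := AddChar.map_zero_eq_one _
    exact h20 (ZMod.injective_stdAddChar (h.trans h0.symm))
  have h3 : (1 - e (2 : ZMod s)) * (1 + e (1 : ZMod s)) ^ q = 0 := by
    linear_combination h2
  rcases mul_eq_zero.1 h3 with h4 | h4
  · exact he2 (sub_eq_zero.1 h4).symm
  · have h5 : 1 + e (1 : ZMod s) = 0 := by
      by_contra h5
      exact pow_ne_zero q h5 h4
    have h6 : e (2 : ZMod s) = e (1 : ZMod s) * e (1 : ZMod s) := by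
      unfold e
      rw [← AddChar.map_add_eq_mul]
      norm_num
    apply he2
    rw [h6]
    linear_combination (e (1 : ZMod s) - 1) * h5

theorem R_even_le {s : ℕ} (hs : 2 ≤ s) (he : Even s) (q k k' : ℕ) (hk : k % 2 = k' % 2)
    (h : M s q (k' : ZMod s) < M s q (k : ZMod s)) : R s (q + 1) ≤ M s q (k : ZMod s) :=
  R_le fun _ hF => card_le_even hs he hF k k' hk h

theorem M_eq {s : ℕ} (he : Even s) (q k : ℕ) : M s q (k : ZMod s) = classSum s q k (k % 2) := by
  rw [← N_eq]
  unfold M N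
  congr 1
  apply Finset.filter_congr
  intro S _
  constructor
  · intro h
    exact ⟨h, parity_of he h⟩
  · exact fun h => h.1

theorem R_even_class {s : ℕ} (hs : 2 ≤ s) (he : Even s) (q k k' : ℕ) (hk : k % 2 = k' % 2)
    (h : classSum s q k' (k' % 2) < classSum s q k (k % 2)) :
    R s (q + 1) ≤ classSum s q k (k % 2) := by
  rw [← M_eq he, ← M_eq he] at h
  rw [← M_eq he]
  exact R_even_le hs he q k k' hk h

/-- even moduli, with the factor `1 / 2` -/
theorem R_even_half {s : ℕ} (hs : 3 ≤ s) (he : Even s) (q : ℕ) :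
    (R s (q + 1) : ℝ) ≤ (1 / s + Real.cos (Real.pi / s) ^ q) * 2 ^ q := by
  have : NeZero s := ⟨by omega⟩
  obtain ⟨κ, hκ⟩ := exists_ne2 hs q
  have h1 : ((κ.val : ℕ) : ZMod s) = κ := ZMod.natCast_zmod_val κ
  have h2 : ((κ.val + 2 : ℕ) : ZMod s) = κ + 2 := by push_cast; rw [h1]
  have h3 : ∃ a : ZMod s, R s (q + 1) ≤ M s q a := by
    rcases lt_or_gt_of_ne hκ with h | h
    · refine ⟨((κ.val : ℕ) : ZMod s), R_even_le (by omega) he q κ.val (κ.val + 2) (by omega) ?_⟩
      rw [h1, h2]; exact h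
    · refine ⟨((κ.val + 2 : ℕ) : ZMod s), R_even_le (by omega) he q (κ.val + 2) κ.val (by omega) ?_⟩
      rw [h1, h2]; exact h
  obtain ⟨a, ha⟩ := h3
  calc (R s (q + 1) : ℝ) ≤ M s q a := by exact_mod_cast ha
    _ ≤ _ := M_le (by omega) q a

/-- all moduli -/
theorem R_all {s : ℕ} (hs : 3 ≤ s) (q : ℕ) :
    (R s (q + 1) : ℝ) ≤ (1 / (2 * s) + Real.cos (Real.pi / (2 * s)) ^ q) * 2 ^ (q + 1) := by
  have hs0 : (0 : ℝ) < s := by exact_mod_cast (by omega : 0 < s)
  have hs3 : (3 : ℝ) ≤ s := by exact_mod_cast hs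
  have hpi := Real.pi_pos
  have hc0 : 0 ≤ Real.cos (Real.pi / (2 * s)) := by
    apply Real.cos_nonneg_of_neg_pi_div_two_le_of_le
    · have : 0 ≤ Real.pi / (2 * s) := by positivity
      linarith
    · apply div_le_div_of_nonneg_left hpi.le (by norm_num)
      linarith
  rcases Nat.even_or_odd s with he | ho
  · refine (R_even_half hs he q).trans ?_
    have h1 : Real.cos (Real.pi / s) ^ q ≤ Real.cos (Real.pi / (2 * s)) ^ q := by
      apply pow_le_pow_left₀
      · apply Real.cos_nonneg_of_neg_pi_div_two_le_of_le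
        · have : 0 ≤ Real.pi / s := by positivity
          linarith
        · apply div_le_div_of_nonneg_left hpi.le (by norm_num)
          linarith
      · apply Real.cos_le_cos_of_nonneg_of_le_pi (by positivity)
        · rw [div_le_iff₀ hs0]; nlinarith
        · apply div_le_div_of_nonneg_left hpi.le hs0
          linarith
    have h2 : (0 : ℝ) < 2 ^ q := by positivity
    have h3 : (0 : ℝ) ≤ Real.cos (Real.pi / (2 * s)) ^ q := by positivity
    have h4 : (1 : ℝ) / (2 * s) = 1 / s / 2 := by field_simp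
    rw [pow_succ, h4]
    nlinarith [mul_le_mul_of_nonneg_right h1 h2.le, mul_nonneg h3 h2.le]
  · have h := R_odd (by omega : 2 ≤ s) ho (q + 1)
    push_cast at h
    refine h.trans ?_
    apply mul_le_mul_of_nonneg_right _ (by positivity)
    have : Real.cos (Real.pi / (2 * s)) ^ (q + 1) ≤ Real.cos (Real.pi / (2 * s)) ^ q :=
      pow_le_pow_of_le_one hc0 (Real.cos_le_one _) (Nat.le_succ q)
    linarith

end Pool.Agent.H150.Cov
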