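import Pool.Agent.H150.Cov.Main

/-! Covering families in `Z_s^q`: consequences of the inertia bound. -/

set_option autoImplicit false

namespace Pool.Agent.H150.Cov

open Finset Complex

/-- the largest size of a covering family in `Z_s^q` -/
noncomputable def R (s q : ℕ) : ℕ :=
  sSup {n | ∃ F : Finset (Fin q → ZMod s), IsCovering F ∧ F.card = n}

theorem R_le {s q B : ℕ} (h : ∀ F : Finset (Fin q → ZMod s), IsCovering F → F.card ≤ B) :
    R s q ≤ B := by
  apply csSup_le
  · exact ⟨0, ∅, fun v hv => absurd hv (Finset.notMem_empty v), rfl⟩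
  · rintro n ⟨F, hF, rfl⟩
    exact h F hF

theorem le_R {s q : ℕ} [NeZero s] {F : Finset (Fin q → ZMod s)} (h : IsCovering F) :
    F.card ≤ R s q := by
  apply le_csSup
  · refine ⟨Fintype.card (Fin q → ZMod s), ?_⟩
    rintro n ⟨F, -, rfl⟩
    exact Finset.card_le_univ F
  · exact ⟨F, h, rfl⟩

/-- the sum of the binomial coefficients `C(q,k)` with `k ≡ κ (mod s)` and `k ≡ ε (mod 2)` -/
def classSum (s q κ ε : ℕ) : ℕ :=
  ∑ k ∈ (Finset.range (q + 1)).filter (fun k => k % s = κ % s ∧ k % 2 = ε), q.choose k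

theorem N_eq (s q κ ε : ℕ) : N s q ε (κ : ZMod s) = classSum s q κ ε := by
  classical
  unfold N classSum
  rw [Finset.card_filter, Finset.sum_filter]
  have h := Finset.sum_powerset_apply_card
    (fun k => if ((k : ZMod s) = (κ : ZMod s) ∧ k % 2 = ε) then (1 : ℕ) else 0)
    (x := (Finset.univ : Finset (Fin q)))
  rw [Finset.powerset_univ] at h
  rw [h, Finset.card_univ, Fintype.card_fin]
  refine Finset.sum_congr rfl fun k _ => ?_
  have : ((k : ZMod s) = (κ : ZMod s)) ↔ k % s = κ % s := by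
    rw [ZMod.natCast_eq_natCast_iff]; rfl
  simp only [this]
  split_ifs <;> simp

theorem R_le_max {s : ℕ} (hs : 2 ≤ s) (q κ : ℕ)
    (h : classSum s q κ 0 ≠ classSum s q κ 1) :
    R s q ≤ max (classSum s q κ 0) (classSum s q κ 1) := by
  have : NeZero s := ⟨by omega⟩
  apply R_le
  intro F hF
  rcases lt_or_gt_of_ne h with h1 | h1
  · have := card_le hF 1 (by norm_num) (κ : ZMod s) (by rw [N_eq, N_eq]; exact h1)
    rw [N_eq] at this
    exact this.trans (le_max_right _ _)
  · have := card_le hF 0 (by norm_num) (κ : ZMod s) (by rw [N_eq, N_eq]; exact h1)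
    rw [N_eq] at this
    exact this.trans (le_max_left _ _)

/-- the number of subsets with cardinality in a residue class -/
def M (m q : ℕ) (a : ZMod m) : ℕ :=
  ((Finset.univ : Finset (Finset (Fin q))).filter (fun S => (S.card : ZMod m) = a)).card

theorem norm_one_add {m : ℕ} [NeZero m] (hm : 2 ≤ m) (t : ZMod m) (ht : t ≠ 0) :
    ‖1 + e t‖ ≤ 2 * Real.cos (Real.pi / m) := by
  have hm0 : (0 : ℝ) < m := by exact_mod_cast (by omega : 0 < m)
  set j := t.val with hj
  have hj1 : 1 ≤ j := by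
    rcases Nat.eq_zero_or_pos j with h | h
    · exact absurd ((ZMod.val_eq_zero t).1 (hj ▸ h)) ht
    · exact h
  have hj2 : j + 1 ≤ m := ZMod.val_lt t
  have he : e t = Complex.exp (2 * ((Real.pi * j / m : ℝ) : ℂ) * I) := by
    unfold e
    rw [ZMod.stdAddChar_apply, ZMod.toCircle_apply]
    congr 1
    rw [← hj]
    push_cast
    ring
  set z : ℝ := Real.pi * j / m with hz
  have h1 : 1 + e t = Complex.exp (z * I) * ((2 * Real.cos z : ℝ) : ℂ) := by
    rw [he]
    push_cast
    rw [Complex.cos]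
    have : Complex.exp (2 * (z : ℂ) * I) = Complex.exp (z * I) * Complex.exp (z * I) := by
      rw [← Complex.exp_add]; ring_nf
    rw [this]
    have h2 : Complex.exp (z * I) * Complex.exp (-(z : ℂ) * I) = 1 := by
      rw [← Complex.exp_add]; ring_nf; exact Complex.exp_zero
    linear_combination -h2
  rw [h1, norm_mul, Complex.norm_exp_ofReal_mul_I, one_mul, Complex.norm_real, Real.norm_eq_abs,
    abs_mul, abs_two]
  refine mul_le_mul_of_nonneg_left ?_ (by norm_num)
  have hpi := Real.pi_pos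
  have hz1 : Real.pi / m ≤ z := by
    rw [hz]
    apply div_le_div_of_nonneg_right _ hm0.le
    have : (1 : ℝ) ≤ j := by exact_mod_cast hj1
    nlinarith
  have hz2 : z ≤ Real.pi - Real.pi / m := by
    rw [hz, le_sub_iff_add_le, ← add_div, div_le_iff₀ hm0]
    have : (j : ℝ) + 1 ≤ m := by exact_mod_cast hj2
    nlinarith
  have hpm : 0 ≤ Real.pi / m := by positivity
  rw [abs_le]
  constructor
  · rw [← Real.cos_pi_sub]
    exact Real.cos_le_cos_of_nonneg_of_le_pi (by linarith) (by linarith) hz2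
  · exact Real.cos_le_cos_of_nonneg_of_le_pi hpm (by linarith) hz1

theorem M_le {m : ℕ} (hm : 2 ≤ m) (q : ℕ) (a : ZMod m) :
    (M m q a : ℝ) ≤ (1 / m + Real.cos (Real.pi / m) ^ q) * 2 ^ q := by
  classical
  have : NeZero m := ⟨by omega⟩
  have hm0 : (0 : ℝ) < m := by exact_mod_cast (by omega : 0 < m)
  have h1 : (m : ℂ) * (M m q a : ℂ) = ∑ t : ZMod m, e (-(t * a)) * (1 + e t) ^ q := by
    unfold M
    rw [Finset.card_filter]
    push_cast
    rw [Finset.mul_sum]
    have h2 : ∀ S : Finset (Fin q), (m : ℂ) * (if (S.card : ZMod m) = a then (1 : ℂ) else 0) =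
        ∑ t : ZMod m, e (-(t * a)) * ∏ _i ∈ S, e t := by
      intro S
      have h3 : ∀ t : ZMod m, e (-(t * a)) * ∏ _i ∈ S, e t = e (t * ((S.card : ZMod m) - a)) := by
        intro t
        rw [Finset.prod_const]
        unfold e
        rw [mul_sub, sub_eq_add_neg, AddChar.map_add_eq_mul, mul_comm t (S.card : ZMod m),
          ← nsmul_eq_mul, AddChar.map_nsmul_eq_pow]
        ring
      rw [Finset.sum_congr rfl fun t _ => h3 t]
      unfold e
      rw [AddChar.sum_mulShift _ (ZMod.isPrimitive_stdAddChar m), ZMod.card]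
      by_cases h : (S.card : ZMod m) = a
      · rw [if_pos h, if_pos (sub_eq_zero.2 h)]; simp
      · rw [if_neg h, if_neg (fun h' => h (sub_eq_zero.1 h'))]; simp
    rw [Finset.sum_congr rfl fun S _ => h2 S, Finset.sum_comm]
    refine Finset.sum_congr rfl fun t _ => ?_
    rw [← Finset.mul_sum]
    refine congrArg _ ?_
    have h4 := Finset.prod_one_add (R := ℂ) (f := fun _ : Fin q => e t) Finset.univ
    rw [Finset.powerset_univ] at h4
    rw [← h4, Finset.prod_const, Finset.card_univ, Fintype.card_fin]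
  have hcos : 0 ≤ Real.cos (Real.pi / m) := by
    apply Real.cos_nonneg_of_neg_pi_div_two_le_of_le
    · have : 0 ≤ Real.pi / m := by positivity
      linarith [Real.pi_pos]
    · apply div_le_div_of_nonneg_left Real.pi_pos.le (by norm_num)
      exact_mod_cast hm
  have h5 : ‖∑ t : ZMod m, e (-(t * a)) * (1 + e t) ^ q‖ ≤
      2 ^ q + m * (2 * Real.cos (Real.pi / m)) ^ q := by
    have hsplit := Finset.sum_erase_add (Finset.univ : Finset (ZMod m))
      (fun t => e (-(t * a)) * (1 + e t) ^ q) (Finset.mem_univ 0)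
    rw [← hsplit]
    refine (norm_add_le _ _).trans ?_
    rw [add_comm]
    have hn : ∀ t : ZMod m, ‖e t‖ = 1 := fun t => AddChar.norm_apply _ _
    apply add_le_add
    · rw [norm_mul, hn, one_mul, norm_pow]
      have : e (0 : ZMod m) = 1 := AddChar.map_zero_eq_one _
      rw [this]
      norm_num
    · refine (norm_sum_le _ _).trans ?_
      have h6 : ∀ t ∈ (Finset.univ : Finset (ZMod m)).erase 0,
          ‖e (-(t * a)) * (1 + e t) ^ q‖ ≤ (2 * Real.cos (Real.pi / m)) ^ q := by
        intro t ht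
        rw [norm_mul, hn, one_mul, norm_pow]
        exact pow_le_pow_left₀ (norm_nonneg _) (norm_one_add hm t (Finset.ne_of_mem_erase ht)) _
      refine (Finset.sum_le_sum h6).trans ?_
      rw [Finset.sum_const, nsmul_eq_mul]
      apply mul_le_mul_of_nonneg_right _ (by positivity)
      have : ((Finset.univ : Finset (ZMod m)).erase 0).card ≤ m := by
        refine (Finset.card_erase_le).trans ?_
        rw [Finset.card_univ, ZMod.card]
      exact_mod_cast this
  rw [← h1, norm_mul, Complex.norm_natCast, Complex.norm_natCast] at h5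
  have h7 : (M m q a : ℝ) ≤ (2 ^ q + m * (2 * Real.cos (Real.pi / m)) ^ q) / m := by
    rw [le_div_iff₀ hm0]
    linarith
  refine h7.trans (le_of_eq ?_)
  rw [mul_pow]
  field_simp

/-- even moduli -/
theorem R_even {s : ℕ} (hs : 2 ≤ s) (he : Even s) (q : ℕ) :
    (R s q : ℝ) ≤ (1 / s + Real.cos (Real.pi / s) ^ q) * 2 ^ q := by
  classical
  have : NeZero s := ⟨by omega⟩
  have h1 : R s q ≤ M s q 0 := by
    apply R_le
    intro F hF
    have hN1 : N s q 1 0 = 0 := by
      unfold N
      rw [Finset.card_eq_zero, Finset.filter_eq_empty_iff]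
      rintro S - ⟨h2, h3⟩
      rw [ZMod.natCast_eq_zero_iff] at h2
      obtain ⟨r, hr⟩ := he
      obtain ⟨c, hc⟩ := h2
      rw [hc, hr, ← two_mul, mul_assoc] at h3
      omega
    have hN0 : 0 < N s q 0 0 := by
      unfold N
      rw [Finset.card_pos]
      exact ⟨∅, by simp⟩
    have := card_le hF 0 (by norm_num) 0 (by rw [hN1]; exact hN0)
    refine this.trans ?_
    unfold N M
    apply Finset.card_le_card
    intro S hS
    rw [Finset.mem_filter] at hS ⊢
    exact ⟨hS.1, hS.2.1⟩
  calc (R s q : ℝ) ≤ M s q 0 := by exact_mod_cast h1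
    _ ≤ _ := M_le hs q 0

theorem exists_ne {s : ℕ} [NeZero s] (hs : 2 ≤ s) (q : ℕ) :
    ∃ κ : ZMod s, N s q 0 κ ≠ N s q 1 κ := by
  classical
  by_contra hcon
  push Not at hcon
  have h1 : ∑ κ : ZMod s, e κ * ((∑ S : Finset (Fin q), D 0 κ S : ℝ) : ℂ) = 0 := by
    apply Finset.sum_eq_zero
    intro κ _
    rw [sum_D_zero 0 (by norm_num), hcon κ]
    simp
  have h2 : ∑ κ : ZMod s, e κ * ((∑ S : Finset (Fin q), D 0 κ S : ℝ) : ℂ) = (1 - e (1 : ZMod s)) ^ q := by
    have h3 := Finset.prod_one_add (R := ℂ) (f := fun _ : Fin q => - e (1 : ZMod s)) Finset.univ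
    rw [Finset.powerset_univ, Finset.prod_const, Finset.card_univ, Fintype.card_fin] at h3
    rw [sub_eq_add_neg, h3]
    push_cast
    simp only [Finset.mul_sum]
    rw [Finset.sum_comm]
    refine Finset.sum_congr rfl fun S _ => ?_
    rw [Finset.sum_eq_single (S.card : ZMod s)]
    · unfold D
      rw [if_pos rfl, Finset.prod_const, neg_pow (e (1 : ZMod s))]
      unfold e
      rw [← AddChar.map_nsmul_eq_pow, nsmul_eq_mul, mul_one]
      push_cast
      ring
    · intro κ _ hκ
      unfold D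
      rw [if_neg (Ne.symm hκ)]
      simp
    · intro h
      exact absurd (Finset.mem_univ _) h
  rw [h1] at h2
  have h4 : (1 - e (1 : ZMod s)) = 0 := by
    by_contra h5
    exact pow_ne_zero q h5 h2.symm
  have h6 : e (1 : ZMod s) = e (0 : ZMod s) := by
    have : e (0 : ZMod s) = 1 := AddChar.map_zero_eq_one _
    rw [this]
    exact (sub_eq_zero.1 h4).symm
  have h7 := ZMod.injective_stdAddChar h6
  have : Fact (1 < s) := ⟨by omega⟩
  exact one_ne_zero h7

/-- odd moduli -/
theorem R_odd {s : ℕ} (hs : 2 ≤ s) (ho : Odd s) (q : ℕ) :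
    (R s q : ℝ) ≤ (1 / ((2 * s : ℕ) : ℝ) + Real.cos (Real.pi / ((2 * s : ℕ) : ℝ)) ^ q) * 2 ^ q := by
  classical
  have : NeZero s := ⟨by omega⟩
  obtain ⟨κ, hκ⟩ := exists_ne hs q
  obtain ⟨ε, hε, hlt⟩ : ∃ ε < 2, N s q (1 - ε) κ < N s q ε κ := by
    rcases lt_or_gt_of_ne hκ with h | h
    · exact ⟨1, by norm_num, h⟩
    · exact ⟨0, by norm_num, h⟩
  have hpos : 0 < N s q ε κ := by omega
  obtain ⟨S₀, hS₀⟩ : ∃ S₀ : Finset (Fin q), (S₀.card : ZMod s) = κ ∧ S₀.card % 2 = ε := by
    unfold N at hpos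
    rw [Finset.card_pos] at hpos
    obtain ⟨S, hS⟩ := hpos
    exact ⟨S, (Finset.mem_filter.1 hS).2⟩
  have hle : N s q ε κ ≤ M (2 * s) q (S₀.card : ZMod (2 * s)) := by
    unfold N M
    apply Finset.card_le_card
    intro S hS
    rw [Finset.mem_filter] at hS ⊢
    refine ⟨hS.1, ?_⟩
    rw [ZMod.natCast_eq_natCast_iff]
    have h1 : S.card ≡ S₀.card [MOD s] := by
      rw [← ZMod.natCast_eq_natCast_iff, hS.2.1, hS₀.1]
    have h2 : S.card ≡ S₀.card [MOD 2] := by
      unfold Nat.ModEq
      rw [hS.2.2, hS₀.2]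
    have hcop : Nat.Coprime 2 s := (Nat.coprime_two_left).2 ho
    exact (Nat.modEq_and_modEq_iff_modEq_mul hcop).1 ⟨h2, h1⟩
  have h1 : R s q ≤ M (2 * s) q (S₀.card : ZMod (2 * s)) :=
    R_le fun F hF => (card_le hF ε hε κ hlt).trans hle
  calc (R s q : ℝ) ≤ M (2 * s) q (S₀.card : ZMod (2 * s)) := by exact_mod_cast h1
    _ ≤ _ := M_le (by omega) q _

/-- the indicator vectors of the `k`-subsets -/
def ind {q : ℕ} (W : Finset (Fin q)) : Fin q → ZMod 3 := fun i => if i ∈ W then 1 else 0

theorem ind_inj {q : ℕ} : Function.Injective (ind (q := q)) := by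
  intro V W h
  ext i
  have h1 := congrFun h i
  unfold ind at h1
  by_cases hV : i ∈ V <;> by_cases hW : i ∈ W <;> simp [hV, hW] at h1 ⊢

theorem zmod3 : ∀ t : ZMod 3, t = 0 ∨ t = 1 ∨ t = 2 := by decide

theorem zmod3' : (0 : ZMod 3) - 1 = 2 := by decide

theorem lower (q : ℕ) (hq : 1 ≤ q) : q.choose ((q - 1) / 2) ≤ R 3 q := by
  classical
  set k := (q - 1) / 2 with hk
  have hcov : IsCovering (s := 3) (((Finset.univ : Finset (Fin q)).powersetCard k).image ind) := by
    intro v hv w hw hvw t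
    obtain ⟨V, hV, rfl⟩ := Finset.mem_image.1 hv
    obtain ⟨W, hW, rfl⟩ := Finset.mem_image.1 hw
    rw [Finset.mem_powersetCard] at hV hW
    have hVW : V ≠ W := fun h => hvw (by rw [h])
    have h1 : ∃ i, i ∈ V ∧ i ∉ W := by
      by_contra h
      push Not at h
      exact hVW (Finset.eq_of_subset_of_card_le h (by rw [hV.2, hW.2]))
    have h2 : ∃ i, i ∈ W ∧ i ∉ V := by
      by_contra h
      push Not at h
      exact hVW (Finset.eq_of_subset_of_card_le h (by rw [hV.2, hW.2])).symm
    have h0 : ∃ i, i ∉ V ∧ i ∉ W := by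
      by_contra h
      push Not at h
      have h3 : (Finset.univ : Finset (Fin q)) ⊆ V ∪ W := by
        intro i _
        rw [Finset.mem_union]
        by_cases hi : i ∈ V
        · exact Or.inl hi
        · exact Or.inr (h i hi)
      have h4 := (Finset.card_le_card h3).trans (Finset.card_union_le _ _)
      rw [Finset.card_univ, Fintype.card_fin, hV.2, hW.2] at h4
      omega
    unfold ind
    rcases zmod3 t with rfl | rfl | rfl
    · obtain ⟨i, hi1, hi2⟩ := h0
      exact ⟨i, by simp [hi1, hi2]⟩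
    · obtain ⟨i, hi1, hi2⟩ := h1
      exact ⟨i, by simp [hi1, hi2]⟩
    · obtain ⟨i, hi1, hi2⟩ := h2
      exact ⟨i, by rw [if_neg hi2, if_pos hi1]; exact zmod3'⟩
  have := le_R hcov
  rw [Finset.card_image_of_injective _ ind_inj, Finset.card_powersetCard, Finset.card_univ,
    Fintype.card_fin] at this
  exact this

theorem exact_le_nine (q : ℕ) (hq : 1 ≤ q) (hq9 : q ≤ 9) : R 3 q = q.choose ((q - 1) / 2) := by
  apply le_antisymm _ (lower q hq)
  have hcs : classSum 3 q ((q - 1) / 2) 0 ≠ classSum 3 q ((q - 1) / 2) 1 := by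
    interval_cases q <;> decide
  refine (R_le_max (by norm_num) q ((q - 1) / 2) hcs).trans (le_of_eq ?_)
  interval_cases q <;> decide

end Pool.Agent.H150.Cov
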