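import Mathlib

/-! Covering families in `Z_s^q`: the inertia bound. -/

set_option autoImplicit false

namespace Pool.Agent.H150.Cov

open Finset Complex

/-- The difference of any two distinct members takes every value of `Z_s` in some coordinate. -/
def IsCovering {s q : ℕ} (F : Finset (Fin q → ZMod s)) : Prop :=
  ∀ v ∈ F, ∀ w ∈ F, v ≠ w → ∀ t : ZMod s, ∃ i, v i - w i = t

/-- A family of vectors on which a diagonal Hermitian form is a positive multiple of the identity
has at most as many members as the form has positive entries. -/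
theorem inertia {ι α : Type*} [Fintype ι] [DecidableEq ι] [DecidableEq α] (F : Finset α)
    (P : α → ι → ℂ) (D : ι → ℝ) (lam : ℝ) (hlam : 0 < lam)
    (hdiag : ∀ v ∈ F, ∑ S, (D S : ℂ) * (P v S * (starRingEnd ℂ) (P v S)) = lam)
    (hoff : ∀ v ∈ F, ∀ w ∈ F, v ≠ w →
      ∑ S, (D S : ℂ) * (P v S * (starRingEnd ℂ) (P w S)) = 0)
    (Pos : Finset ι) (hPos : ∀ S, S ∉ Pos → D S ≤ 0) : F.card ≤ Pos.card := by
  by_contra hlt
  push Not at hlt
  let L : (F → ℂ) →ₗ[ℂ] (Pos → ℂ) :=
    LinearMap.pi fun S => ∑ v : F, (P v S) • LinearMap.proj v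
  have hker : LinearMap.ker L ≠ ⊥ := by
    apply LinearMap.ker_ne_bot_of_finrank_lt
    rw [Module.finrank_fintype_fun_eq_card, Module.finrank_fintype_fun_eq_card, Fintype.card_coe,
      Fintype.card_coe]
    exact hlt
  obtain ⟨c, hc, hc0⟩ := Submodule.exists_mem_ne_zero_of_ne_bot hker
  have hx : ∀ S ∈ Pos, ∑ v : F, c v * P v S = 0 := by
    intro S hS
    have h1 := congrFun (LinearMap.mem_ker.1 hc) ⟨S, hS⟩
    simp only [L, LinearMap.pi_apply, LinearMap.sum_apply, LinearMap.smul_apply,
      LinearMap.proj_apply, smul_eq_mul, Pi.zero_apply] at h1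
    rw [← h1]
    exact Finset.sum_congr rfl fun v _ => mul_comm _ _
  set x : ι → ℂ := fun S => ∑ v : F, c v * P v S with hxdef
  have key : ∑ S, (D S : ℂ) * (x S * (starRingEnd ℂ) (x S)) =
      lam * ∑ v : F, (c v * (starRingEnd ℂ) (c v)) := by
    have h1 : ∀ S, (D S : ℂ) * (x S * (starRingEnd ℂ) (x S)) =
        ∑ v : F, ∑ w : F, (c v * (starRingEnd ℂ) (c w)) *
          ((D S : ℂ) * (P v S * (starRingEnd ℂ) (P w S))) := by
      intro S
      rw [hxdef]
      rw [map_sum, Finset.sum_mul_sum, Finset.mul_sum]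
      refine Finset.sum_congr rfl fun v _ => ?_
      rw [Finset.mul_sum]
      refine Finset.sum_congr rfl fun w _ => ?_
      rw [map_mul]
      ring
    calc ∑ S, (D S : ℂ) * (x S * (starRingEnd ℂ) (x S))
        = ∑ S, ∑ v : F, ∑ w : F, (c v * (starRingEnd ℂ) (c w)) *
          ((D S : ℂ) * (P v S * (starRingEnd ℂ) (P w S))) := Finset.sum_congr rfl fun S _ => h1 S
      _ = ∑ v : F, ∑ w : F, (c v * (starRingEnd ℂ) (c w)) *
          ∑ S, ((D S : ℂ) * (P v S * (starRingEnd ℂ) (P w S))) := by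
          rw [Finset.sum_comm]
          refine Finset.sum_congr rfl fun v _ => ?_
          rw [Finset.sum_comm]
          refine Finset.sum_congr rfl fun w _ => ?_
          rw [Finset.mul_sum]
      _ = ∑ v : F, (c v * (starRingEnd ℂ) (c v)) * lam := by
          refine Finset.sum_congr rfl fun v _ => ?_
          rw [Finset.sum_eq_single v]
          · rw [hdiag v v.2]
          · intro w _ hw
            rw [hoff v v.2 w w.2 (fun h => hw (Subtype.ext h.symm)), mul_zero]
          · intro h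
            exact absurd (Finset.mem_univ _) h
      _ = lam * ∑ v : F, (c v * (starRingEnd ℂ) (c v)) := by
          rw [Finset.mul_sum]
          exact Finset.sum_congr rfl fun v _ => mul_comm _ _
  have key2 : ∑ S, D S * Complex.normSq (x S) = lam * ∑ v : F, Complex.normSq (c v) := by
    have h2 : ((∑ S, D S * Complex.normSq (x S) : ℝ) : ℂ) =
        ((lam * ∑ v : F, Complex.normSq (c v) : ℝ) : ℂ) := by
      push_cast
      simp only [← Complex.mul_conj]
      exact key
    exact_mod_cast h2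
  have hle : ∑ S, D S * Complex.normSq (x S) ≤ 0 := by
    apply Finset.sum_nonpos
    intro S _
    by_cases hS : S ∈ Pos
    · have : x S = 0 := hx S hS
      rw [this]; simp
    · exact mul_nonpos_of_nonpos_of_nonneg (hPos S hS) (Complex.normSq_nonneg _)
  have hgt : 0 < lam * ∑ v : F, Complex.normSq (c v) := by
    apply mul_pos hlam
    obtain ⟨v, hv⟩ := Function.ne_iff.1 hc0
    apply Finset.sum_pos' (fun v _ => Complex.normSq_nonneg _)
    exact ⟨v, Finset.mem_univ _, Complex.normSq_pos.2 hv⟩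
  linarith

section root

variable {s : ℕ} [NeZero s]

/-- the standard additive character -/
noncomputable abbrev e (x : ZMod s) : ℂ := ZMod.stdAddChar x

theorem e_conj (x : ZMod s) : (starRingEnd ℂ) (e x) = e (-x) :=
  (AddChar.map_neg_eq_conj _ _).symm

theorem e_mul_conj (x : ZMod s) : e x * (starRingEnd ℂ) (e x) = 1 := by
  rw [e_conj]
  unfold e
  rw [← AddChar.map_add_eq_mul, add_neg_cancel, AddChar.map_zero_eq_one]

/-- the vector attached to `v` -/
noncomputable def P {q : ℕ} (v : Fin q → ZMod s) (S : Finset (Fin q)) : ℂ := ∏ i ∈ S, e (v i)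

theorem P_mul_conj {q : ℕ} (v w : Fin q → ZMod s) (S : Finset (Fin q)) :
    P v S * (starRingEnd ℂ) (P w S) = ∏ i ∈ S, e (v i - w i) := by
  unfold P
  rw [map_prod, ← Finset.prod_mul_distrib]
  refine Finset.prod_congr rfl fun i _ => ?_
  rw [e_conj]
  unfold e
  rw [← AddChar.map_add_eq_mul, sub_eq_add_neg]

/-- the diagonal form -/
noncomputable def D {q : ℕ} (ε : ℕ) (κ : ZMod s) (S : Finset (Fin q)) : ℝ :=
  if (S.card : ZMod s) = κ then (-1) ^ (S.card + ε) else 0

theorem D_eq {q : ℕ} (ε : ℕ) (κ : ZMod s) (S : Finset (Fin q)) :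
    (s : ℂ) * (D ε κ S : ℂ) = (-1) ^ ε * ∑ t : ZMod s, e (-(t * κ)) * ∏ _i ∈ S, (-e t) := by
  classical
  have h1 : ∀ t : ZMod s, e (-(t * κ)) * ∏ _i ∈ S, (-e t) =
      (-1) ^ S.card * e (t * ((S.card : ZMod s) - κ)) := by
    intro t
    rw [Finset.prod_const, neg_pow]
    unfold e
    rw [mul_sub, sub_eq_add_neg, AddChar.map_add_eq_mul, mul_comm t (S.card : ZMod s),
      ← nsmul_eq_mul, AddChar.map_nsmul_eq_pow]
    ring
  rw [Finset.sum_congr rfl fun t _ => h1 t, ← Finset.mul_sum]
  unfold e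
  rw [AddChar.sum_mulShift _ (ZMod.isPrimitive_stdAddChar s), ZMod.card]
  unfold D
  by_cases h : (S.card : ZMod s) = κ
  · rw [if_pos h, if_pos (sub_eq_zero.2 h)]
    push_cast
    ring
  · rw [if_neg h, if_neg (fun h' => h (sub_eq_zero.1 h'))]
    push_cast
    ring

theorem sum_D {q : ℕ} (ε : ℕ) (κ : ZMod s) (a : Fin q → ZMod s) :
    (s : ℂ) * ∑ S : Finset (Fin q), (D ε κ S : ℂ) * ∏ i ∈ S, e (a i) =
      (-1) ^ ε * ∑ t : ZMod s, e (-(t * κ)) * ∏ i, (1 - e (t + a i)) := by
  classical
  rw [Finset.mul_sum]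
  have h1 : ∀ S : Finset (Fin q), (s : ℂ) * ((D ε κ S : ℂ) * ∏ i ∈ S, e (a i)) =
      ∑ t : ZMod s, (-1) ^ ε * (e (-(t * κ)) * ∏ i ∈ S, (- e (t + a i))) := by
    intro S
    rw [← mul_assoc, D_eq, mul_assoc, Finset.sum_mul, Finset.mul_sum]
    refine Finset.sum_congr rfl fun t _ => ?_
    rw [mul_assoc (e (-(t * κ))), ← Finset.prod_mul_distrib]
    refine congrArg _ (congrArg _ (Finset.prod_congr rfl fun i _ => ?_))
    unfold e
    rw [AddChar.map_add_eq_mul]
    ring
  rw [Finset.sum_congr rfl fun S _ => h1 S, Finset.sum_comm, Finset.mul_sum]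
  refine Finset.sum_congr rfl fun t _ => ?_
  rw [← Finset.mul_sum, ← Finset.mul_sum]
  refine congrArg _ (congrArg _ ?_)
  have h2 := Finset.prod_one_add (R := ℂ) (f := fun i : Fin q => - e (t + a i)) Finset.univ
  rw [Finset.powerset_univ] at h2
  rw [← h2]
  exact Finset.prod_congr rfl fun i _ => by ring

/-- the number of subsets with cardinality in a residue class modulo `s` and of a given parity -/
def N (s q ε : ℕ) (κ : ZMod s) : ℕ :=
  ((Finset.univ : Finset (Finset (Fin q))).filter
    (fun S => (S.card : ZMod s) = κ ∧ S.card % 2 = ε)).card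

theorem sum_D_zero {q : ℕ} (ε : ℕ) (hε : ε < 2) (κ : ZMod s) :
    ∑ S : Finset (Fin q), D ε κ S = (N s q ε κ : ℝ) - N s q (1 - ε) κ := by
  classical
  unfold N D
  rw [Finset.card_filter, Finset.card_filter]
  push_cast
  rw [← Finset.sum_sub_distrib]
  refine Finset.sum_congr rfl fun S _ => ?_
  by_cases h : (S.card : ZMod s) = κ
  · simp only [h, if_true, true_and]
    have h3 : S.card % 2 = 0 ∨ S.card % 2 = 1 := by omega
    have h4 : ε = 0 ∨ ε = 1 := by omega
    rcases h3 with h3 | h3 <;> rcases h4 with h4 | h4 <;> subst h4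
    · have : Even (S.card + 0) := Nat.even_iff.2 (by omega)
      rw [this.neg_one_pow]; simp [h3]
    · have : Odd (S.card + 1) := Nat.odd_iff.2 (by omega)
      rw [this.neg_one_pow]; simp [h3]
    · have : Odd (S.card + 0) := Nat.odd_iff.2 (by omega)
      rw [this.neg_one_pow]; simp [h3]
    · have : Even (S.card + 1) := Nat.even_iff.2 (by omega)
      rw [this.neg_one_pow]; simp [h3]
  · simp [h]

/-- **The inertia bound.** -/
theorem card_le {q : ℕ} {F : Finset (Fin q → ZMod s)} (hF : IsCovering F) (ε : ℕ) (hε : ε < 2)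
    (κ : ZMod s) (h : N s q (1 - ε) κ < N s q ε κ) : F.card ≤ N s q ε κ := by
  classical
  have hs : (s : ℂ) ≠ 0 := by exact_mod_cast NeZero.ne s
  refine inertia F (fun v S => P v S) (D ε κ) ((N s q ε κ : ℝ) - N s q (1 - ε) κ) ?_ ?_ ?_ _ ?_
  · have : (N s q (1 - ε) κ : ℝ) < N s q ε κ := by exact_mod_cast h
    linarith
  · intro v _
    rw [← sum_D_zero ε hε κ]
    push_cast
    refine Finset.sum_congr rfl fun S _ => ?_
    rw [P_mul_conj]
    simp [e]
  · intro v hv w hw hvw
    have h1 : (s : ℂ) * ∑ S : Finset (Fin q), (D ε κ S : ℂ) *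
        (P v S * (starRingEnd ℂ) (P w S)) = 0 := by
      simp only [P_mul_conj]
      rw [sum_D ε κ (fun i => v i - w i)]
      rw [Finset.sum_eq_zero, mul_zero]
      intro t _
      obtain ⟨i, hi⟩ := hF v hv w hw hvw (-t)
      rw [Finset.prod_eq_zero (Finset.mem_univ i), mul_zero]
      rw [hi, add_neg_cancel]
      unfold e
      rw [AddChar.map_zero_eq_one, sub_self]
    exact (mul_eq_zero.1 h1).resolve_left hs
  · intro S hS
    unfold D
    split_ifs with h1
    · have h2 : S.card % 2 ≠ ε := fun h2 => hS (by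
        rw [Finset.mem_filter]; exact ⟨Finset.mem_univ _, h1, h2⟩)
      have : Odd (S.card + ε) := Nat.odd_iff.2 (by omega)
      rw [this.neg_one_pow]
      norm_num
    · exact le_rfl

end root

end Pool.Agent.H150.Cov
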